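import Pool.Agent.H623R2.PS.Savitch
import Pool.Agent.H623R2.PS.RulesPoly
import Pool.Agent.NPC.Dec

/-!
# REACHABLE SUBSET_k is in `PSPACE`
-/

namespace Pool.Agent.H505R3.RS

open Pool.Agent.NPC Pool.Agent.H623R2.PS

set_option autoImplicit false

/-- the codes of instances -/
abbrev Code : Type := ℕ × ℕ × List (List ℕ) × List Bool

/-- the image of a set of states under a letter, on bit strings -/
def img (n : ℕ) (row : List ℕ) (u : List Bool) : List Bool :=
  (List.range n).map fun q' => (List.range n).any fun q => u.getD q false && decide (row.getD q 0 = q')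

/-- the test whether a code is a code of an instance -/
def okc (c : Code) : Bool :=
  decide (c.1 = c.2.2.2.length) && (decide (c.2.1 = c.2.2.1.length) &&
    (c.2.2.1.all fun row => decide (row.length = c.2.2.2.length) &&
      row.all fun x => decide (x < c.2.2.2.length)))

/-- the test of an instance -/
def good (k : ℕ) (c : Code) : Bool :=
  okc c && decide ((c.2.2.2.filter fun b => b).length = k)

/-- one letter -/
def stp (c : Code) (u v : List Bool) : Bool :=
  c.2.2.1.any fun row => decide (v = img c.2.2.2.length row u)

theorem poly_img {α : Type} [TEnc α] {n : α → ℕ} {row : α → List ℕ} {u : α → List Bool}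
    (hn : UPoly n) (hrow : NPC.Poly row) (hu : NPC.Poly u) :
    NPC.Poly (fun a => img (n a) (row a) (u a)) := by
  unfold img
  refine NPC.Poly.map (l := fun a => List.range (n a)) (F := fun a q' => (List.range (n a)).any
    fun q => (u a).getD q false && decide ((row a).getD q 0 = q')) hn.range ?_
  have hx : NPC.Poly (fun p : α × ℕ => p.1) := NPC.Poly.fst NPC.Poly.id
  refine NPC.Poly.any (l := fun p : α × ℕ => List.range (n p.1))
    (p := fun p q => (u p.1).getD q false && decide ((row p.1).getD q 0 = p.2))
    (hn.comp hx).range ?_
  have hx2 : NPC.Poly (fun p : (α × ℕ) × ℕ => p.1.1) := NPC.Poly.fst (NPC.Poly.fst NPC.Poly.id)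
  have hq' : NPC.Poly (fun p : (α × ℕ) × ℕ => p.1.2) := NPC.Poly.snd (NPC.Poly.fst NPC.Poly.id)
  have hq : NPC.Poly (fun p : (α × ℕ) × ℕ => p.2) := NPC.Poly.snd NPC.Poly.id
  exact NPC.Poly.and (NPC.Poly.getD (hu.comp hx2) hq (NPC.Poly.const false))
    (NPC.Poly.decide_eq (NPC.Poly.getD (hrow.comp hx2) hq (NPC.Poly.const 0)) hq')

theorem poly_stp : NPC.Poly (fun p : Code × List Bool × List Bool => stp p.1 p.2.1 p.2.2) := by
  unfold stp
  refine NPC.Poly.any (l := fun p : Code × List Bool × List Bool => p.1.2.2.1)
    (p := fun p row => decide (p.2.2 = img p.1.2.2.2.length row p.2.1)) (by fun_prop) ?_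
  have h1 : UPoly (fun p : (Code × List Bool × List Bool) × List ℕ => p.1.1.2.2.2.length) :=
    UPoly.length (by fun_prop)
  exact NPC.Poly.decide_eq (by fun_prop) (poly_img h1 (by fun_prop) (by fun_prop))

theorem poly_good (k : ℕ) : NPC.Poly (good k) := by
  unfold good okc
  have h1 : NPC.Poly (fun p : Code × List ℕ => p.2.all fun x => decide (x < p.1.2.2.2.length)) :=
    NPC.Poly.all (l := fun p : Code × List ℕ => p.2) (p := fun p x => decide (x < p.1.2.2.2.length))
      (by fun_prop) (by fun_prop)
  have h2 : NPC.Poly (fun c : Code => c.2.2.1.all fun row =>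
      decide (row.length = c.2.2.2.length) && row.all fun x => decide (x < c.2.2.2.length)) :=
    NPC.Poly.all (l := fun c : Code => c.2.2.1) (p := fun c row =>
      decide (row.length = c.2.2.2.length) && row.all fun x => decide (x < c.2.2.2.length))
      (by fun_prop) (NPC.Poly.and (by fun_prop) h1)
  have h3 : NPC.Poly (fun c : Code => c.2.2.2.filter fun b => b) :=
    NPC.Poly.filter (l := fun c : Code => c.2.2.2) (p := fun _ b => b) (by fun_prop) (by fun_prop)
  refine NPC.Poly.and (NPC.Poly.and (by fun_prop) (NPC.Poly.and (by fun_prop) h2)) ?_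
  exact NPC.Poly.decide_eq (NPC.Poly.length h3) (NPC.Poly.const k)

/-- characteristic vector -/
def vec {n : ℕ} (S : Finset (Fin n)) : List Bool := (List.finRange n).map fun q => decide (q ∈ S)

theorem vec_length {n : ℕ} (S : Finset (Fin n)) : (vec S).length = n := by simp [vec]

theorem vec_getD {n : ℕ} (S : Finset (Fin n)) (q : Fin n) : (vec S).getD q.val false = decide (q ∈ S) := by
  unfold vec
  rw [List.getD_eq_getElem _ _ (by simp)]
  simp

theorem vec_injective {n : ℕ} : Function.Injective (vec (n := n)) := by
  intro S S' h
  ext q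
  have h1 := vec_getD S q
  rw [h, vec_getD] at h1
  simpa using h1.symm

theorem vec_univ (n : ℕ) : vec (Finset.univ : Finset (Fin n)) = List.replicate n true := by
  apply List.ext_getElem
  · simp [vec_length]
  · intro i h1 h2
    simp [vec]

theorem vec_count {n : ℕ} (S : Finset (Fin n)) : ((vec S).filter fun b => b).length = S.card := by
  unfold vec
  rw [List.filter_map, List.length_map]
  have h1 : ((List.finRange n).filter ((fun b => b) ∘ fun q => decide (q ∈ S))).toFinset = S := by
    ext q
    simp
  rw [← h1, List.toFinset_card_of_nodup ((List.nodup_finRange n).filter _)]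
  rw [h1]

theorem img_getElem (n : ℕ) (row : List ℕ) (u : List Bool) (i : ℕ) (h : i < (img n row u).length) :
    (img n row u)[i]'h = (List.range n).any fun q => u.getD q false && decide (row.getD q 0 = i) := by
  simp only [img, List.getElem_map, List.getElem_range]

theorem vec_getElem {n : ℕ} (S : Finset (Fin n)) (i : ℕ) (h : i < (vec S).length) (h2 : i < n) :
    (vec S)[i]'h = decide ((⟨i, h2⟩ : Fin n) ∈ S) := by
  simp [vec]

/-- the image of a set of states under a letter -/
theorem img_vec {n : ℕ} (f : Fin n → Fin n) (S : Finset (Fin n)) :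
    img n ((List.finRange n).map fun q => (f q).val) (vec S) = vec (S.image f) := by
  apply List.ext_getElem
  · simp [img, vec_length]
  · intro i h1 h2
    have h2' : i < n := by rwa [vec_length] at h2
    rw [img_getElem, vec_getElem _ _ _ h2', Bool.eq_iff_iff, List.any_eq_true, decide_eq_true_eq, Finset.mem_image]
    constructor
    · rintro ⟨q, hq, h⟩
      rw [List.mem_range] at hq
      rw [Bool.and_eq_true, decide_eq_true_eq] at h
      have h4 := vec_getD S ⟨q, hq⟩
      simp only at h4
      rw [h.1] at h4
      refine ⟨⟨q, hq⟩, by simpa using h4.symm, ?_⟩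
      have h5 := h.2
      rw [List.getD_eq_getElem _ _ (by simpa using hq)] at h5
      apply Fin.ext
      simpa using h5
    · rintro ⟨q, hq, h⟩
      refine ⟨q.val, List.mem_range.2 q.2, ?_⟩
      rw [Bool.and_eq_true, decide_eq_true_eq]
      refine ⟨by rw [vec_getD]; simpa using hq, ?_⟩
      rw [List.getD_eq_getElem _ _ (by simp)]
      simp [h]

theorem code_vec (I : Inst) : I.code.2.2.2 = vec I.P := rfl

theorem code_len (I : Inst) : I.code.2.2.2.length = I.n := by rw [code_vec, vec_length]

theorem stp_vec (I : Inst) (S : Finset (Fin I.n)) (v : List Bool) :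
    stp I.code (vec S) v = true ↔ ∃ a : Fin I.m, v = vec (S.image fun q => I.δ q a) := by
  unfold stp
  rw [List.any_eq_true, code_len]
  constructor
  · rintro ⟨row, hrow, h⟩
    unfold Inst.code at hrow
    simp only [List.mem_map, List.mem_finRange, true_and] at hrow
    obtain ⟨a, rfl⟩ := hrow
    rw [decide_eq_true_eq, img_vec] at h
    exact ⟨a, h⟩
  · rintro ⟨a, rfl⟩
    refine ⟨(List.finRange I.n).map fun q => (I.δ q a).val, ?_, ?_⟩
    · unfold Inst.code
      simp only [List.mem_map, List.mem_finRange, true_and]
      exact ⟨a, rfl⟩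
    · rw [decide_eq_true_eq, img_vec]

theorem image_snoc (I : Inst) (w : List (Fin I.m)) (a : Fin I.m) :
    I.image (w ++ [a]) = (I.image w).image fun q => I.δ q a := by
  unfold Inst.image
  rw [Finset.image_image]
  congr 1
  funext q
  simp

theorem reach_iff (I : Inst) (v : List Bool) :
    Relation.ReflTransGen (fun u v => stp I.code u v = true) (vec (Finset.univ : Finset (Fin I.n))) v ↔
      ∃ w : List (Fin I.m), v = vec (I.image w) := by
  constructor
  · intro h
    induction h with
    | refl =>
      refine ⟨[], ?_⟩
      congr 1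
      unfold Inst.image
      ext q
      simp
    | @tail u v _ h ih =>
      obtain ⟨w, rfl⟩ := ih
      rw [stp_vec] at h
      obtain ⟨a, rfl⟩ := h
      exact ⟨w ++ [a], by rw [image_snoc]⟩
  · rintro ⟨w, rfl⟩
    induction w using List.reverseRecOn with
    | nil =>
      have : I.image [] = Finset.univ := by
        unfold Inst.image
        ext q
        simp
      rw [this]
    | append_singleton w a ih =>
      refine ih.tail ?_
      rw [stp_vec]
      exact ⟨a, by rw [image_snoc]⟩

theorem good_code (k : ℕ) (I : Inst) : good k I.code = true ↔ I.P.card = k := by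
  unfold good
  rw [Bool.and_eq_true, decide_eq_true_eq, code_vec, vec_count]
  constructor
  · exact fun h => h.2
  · intro h
    refine ⟨?_, h⟩
    unfold okc
    rw [Bool.and_eq_true, Bool.and_eq_true, List.all_eq_true, decide_eq_true_eq, decide_eq_true_eq,
      code_len]
    refine ⟨rfl, by simp [Inst.code], ?_⟩
    intro row hrow
    unfold Inst.code at hrow
    simp only [List.mem_map, List.mem_finRange, true_and] at hrow
    obtain ⟨a, rfl⟩ := hrow
    rw [Bool.and_eq_true, decide_eq_true_eq, List.all_eq_true]
    refine ⟨by simp, ?_⟩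
    intro x hx
    simp only [List.mem_map, List.mem_finRange, true_and] at hx
    obtain ⟨q, rfl⟩ := hx
    simp

theorem exists_inst {c : Code} (h : okc c = true) : ∃ I : Inst, I.code = c := by
  obtain ⟨n, m, tb, P⟩ := c
  unfold okc at h
  simp only [Bool.and_eq_true, List.all_eq_true, decide_eq_true_eq] at h
  obtain ⟨rfl, rfl, h⟩ := h
  refine ⟨⟨P.length, tb.length, fun q a => ⟨(tb[a.val]).getD q.val 0, ?_⟩,
    Finset.univ.filter fun q => P[q.val] = true⟩, ?_⟩
  · have h1 := h tb[a.val] (List.getElem_mem _)
    rw [List.getD_eq_getElem _ _ (by rw [h1.1]; exact q.2)]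
    exact h1.2 _ (List.getElem_mem _)
  · unfold Inst.code
    refine congrArg₂ Prod.mk rfl (congrArg₂ Prod.mk rfl (congrArg₂ Prod.mk ?_ ?_))
    · apply List.ext_getElem
      · simp
      · intro i h1 h2
        rw [List.getElem_map]
        apply List.ext_getElem
        · have := (h tb[i] (List.getElem_mem _)).1
          simp [this]
        · intro j h3 h4
          rw [List.getElem_map]
          simp only [List.getElem_finRange, Fin.val_cast]
          rw [List.getD_eq_getElem _ _ h4]
    · apply List.ext_getElem
      · simp
      · intro i h1 h2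
        rw [List.getElem_map]
        simp

/-- the instance coded by the input, or a bad code -/
def init (x : List Bool) : Code := (unbits Code x).getD (1, 0, [], [])

theorem member (k : ℕ) : InPSPACE (lang (ReachableSubset k)) := by
  have hinit : NPC.Poly init := NPC.Poly.optGetD poly_unbits (NPC.Poly.const _)
  have hw : UPoly (fun c : Code => c.2.2.2.length) := UPoly.length (by fun_prop)
  refine inPSPACE_of_reach hinit hw (good := good k) (poly_good k) (R := stp) poly_stp
    (s := fun c => List.replicate c.2.2.2.length true) (t := fun c => c.2.2.2)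
    (poly_replicate hw true) (by fun_prop) ?_ ?_ ?_
  · intro c
    simp
  · intro c u v _ h
    unfold stp at h
    rw [List.any_eq_true] at h
    obtain ⟨row, _, h⟩ := h
    rw [decide_eq_true_eq] at h
    rw [h]
    simp [img]
  · intro x
    constructor
    · rintro ⟨I, rfl, hcard, w, hw⟩
      have h1 : init (bits I) = I.code := by
        unfold init
        have : bits I = bits I.code := rfl
        rw [this, unbits_bits, Option.getD_some]
      rw [h1, good_code, code_len, code_vec]
      refine ⟨hcard, ?_⟩
      have h2 := (reach_iff I (vec I.P)).2 ⟨w, by rw [hw]⟩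
      rwa [vec_univ] at h2
    · rintro ⟨h1, h2⟩
      have hok : okc (init x) = true := by
        unfold good at h1
        rw [Bool.and_eq_true] at h1
        exact h1.1
      obtain ⟨I, hI⟩ := exists_inst hok
      rw [← hI, good_code] at h1
      rw [← hI, code_len, code_vec, ← vec_univ, reach_iff] at h2
      obtain ⟨w, hw⟩ := h2
      refine ⟨I, ?_, h1, w, (vec_injective hw).symm⟩
      have h3 : bits I = bits I.code := rfl
      rw [h3, hI]
      unfold init
      cases hx : unbits Code x with
      | none =>
        exfalso
        unfold init at hok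
        rw [hx, Option.getD_none] at hok
        exact absurd hok (by decide)
      | some c =>
        rw [Option.getD_some]
        exact bits_of_unbits hx

end Pool.Agent.H505R3.RS
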